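import Mathlib.GroupTheory.FreeGroup.Reduce
import Mathlib.GroupTheory.Index
import Mathlib.Tactic

/-!
# Piecewise powers of an element, and group laws: trajectories

`G` acts on `X`, `t : G`. `Disp X t D g` says that `g` moves every point by at most `D` steps along
the orbits of `t`. If some `g` with `Disp X t D g` fixes a long `t`-interval and moves the next
point, then every alternating word is not a law (unless the `t`-orbit of the point is small).
-/

set_option autoImplicit false

namespace Pool.Agent.FullLaws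

variable {G : Type} [Group G] (X : Type) [MulAction G X]

/-- every point is moved by at most `D` steps along the orbits of `t` -/
def Disp (t : G) (D : ℕ) (g : G) : Prop := ∀ x : X, ∃ i : ℤ, |i| ≤ D ∧ g • x = t ^ i • x

variable {X}

theorem Disp.mono {t : G} {D D' : ℕ} {g : G} (h : Disp X t D g) (hD : D ≤ D') :
    Disp X t D' g := by
  intro x
  obtain ⟨i, hi, e⟩ := h x
  exact ⟨i, hi.trans (by exact_mod_cast hD), e⟩

theorem Disp.one (t : G) (D : ℕ) : Disp X t D 1 := by
  intro x
  exact ⟨0, by simp, by simp⟩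

theorem Disp.mul {t : G} {D D' : ℕ} {g h : G} (hg : Disp X t D g) (hh : Disp X t D' h) :
    Disp X t (D + D') (g * h) := by
  intro x
  obtain ⟨i, hi, e⟩ := hh x
  obtain ⟨j, hj, e'⟩ := hg (t ^ i • x)
  refine ⟨j + i, ?_, ?_⟩
  · push_cast
    exact (abs_add_le j i).trans (add_le_add hj hi)
  · rw [mul_smul, e, e', zpow_add, mul_smul]

theorem Disp.inv {t : G} {D : ℕ} {g : G} (hg : Disp X t D g) : Disp X t D g⁻¹ := by
  intro x
  obtain ⟨i, hi, e⟩ := hg (g⁻¹ • x)
  rw [smul_inv_smul] at e
  refine ⟨-i, by rwa [abs_neg], ?_⟩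
  rw [zpow_neg, eq_inv_smul_iff, ← e]

theorem Disp.conj {t : G} {D : ℕ} {g : G} (hg : Disp X t D g) (s : ℤ) :
    Disp X t D (t ^ s * g * t ^ (-s)) := by
  intro x
  obtain ⟨i, hi, e⟩ := hg (t ^ (-s) • x)
  refine ⟨i, hi, ?_⟩
  rw [mul_smul, mul_smul, e, ← mul_smul, ← mul_smul, ← zpow_add, ← zpow_add]
  congr 2
  ring

theorem Disp.neg {t : G} {D : ℕ} {g : G} (hg : Disp X t D g) : Disp X t⁻¹ D g := by
  intro x
  obtain ⟨i, hi, e⟩ := hg x
  exact ⟨-i, by rwa [abs_neg], by rw [inv_zpow, zpow_neg, inv_inv, e]⟩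

/-! ### words -/

/-- the value of a letter -/
def letter (lam : ℕ → G) (a : ℕ × Bool) : G := cond a.2 (lam a.1) (lam a.1)⁻¹

/-- the value of a word -/
def ev (lam : ℕ → G) (L : List (ℕ × Bool)) : G := (L.map (letter lam)).prod

theorem ev_cons (lam : ℕ → G) (a : ℕ × Bool) (L : List (ℕ × Bool)) :
    ev lam (a :: L) = letter lam a * ev lam L := by
  simp [ev]

/-- neighbouring letters are powers of different variables -/
def Alt : List (ℕ × Bool) → Prop
  | [] => True
  | [_] => True
  | a :: b :: L => a.1 ≠ b.1 ∧ Alt (b :: L)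

theorem Alt.tail {a : ℕ × Bool} {L : List (ℕ × Bool)} (h : Alt (a :: L)) : Alt L := by
  cases L with
  | nil => trivial
  | cons b L => exact h.2

/-- `L` does not start with the variable `v` -/
def NotHead (v : ℕ) : List (ℕ × Bool) → Prop
  | [] => True
  | b :: _ => v ≠ b.1

theorem Alt.notHead {a : ℕ × Bool} {L : List (ℕ × Bool)} (h : Alt (a :: L)) :
    NotHead a.1 L := by
  cases L with
  | nil => trivial
  | cons b L => exact h.1

/-- the word moves `q` to `t ^ n • q`, and the exponents increase strictly on the way -/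
def Traj (t : G) (q : X) (lam : ℕ → G) : List (ℕ × Bool) → ℤ → Prop
  | [], n => n = 0
  | a :: L, n => ∃ m, m < n ∧ Traj t q lam L m ∧ letter lam a • t ^ m • q = t ^ n • q

theorem Traj.nonneg {t : G} {q : X} {lam : ℕ → G} {L : List (ℕ × Bool)} :
    ∀ {n : ℤ}, Traj t q lam L n → 0 ≤ n := by
  induction L with
  | nil => intro n h; exact le_of_eq h.symm
  | cons a L ih =>
    rintro n ⟨m, h1, h2, -⟩
    exact (ih h2).trans h1.le

theorem Traj.pos {t : G} {q : X} {lam : ℕ → G} {a : ℕ × Bool} {L : List (ℕ × Bool)}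
    {n : ℤ} (h : Traj t q lam (a :: L) n) : 0 < n := by
  obtain ⟨m, h1, h2, -⟩ := h
  exact lt_of_le_of_lt h2.nonneg h1

theorem Traj.ev {t : G} {q : X} {lam : ℕ → G} {L : List (ℕ × Bool)} :
    ∀ {n : ℤ}, Traj t q lam L n → ev lam L • q = t ^ n • q := by
  induction L with
  | nil => intro n h; rw [show n = 0 from h]; simp [FullLaws.ev]
  | cons a L ih =>
    rintro n ⟨m, h1, h2, h3⟩
    rw [ev_cons, mul_smul, ih h2, h3]

/-- changing `lam v` by an element which fixes the points in front of the last one -/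
theorem Traj.keep {t : G} {q : X} {lam lam' : ℕ → G} {v : ℕ} {h : G} {B : ℤ}
    (hfix : ∀ i : ℤ, 0 ≤ i → i < B → h • t ^ i • q = t ^ i • q)
    (hne : ∀ u, u ≠ v → lam' u = lam u)
    (hv : lam' v = lam v * h ∨ lam' v = h⁻¹ * lam v) {L : List (ℕ × Bool)} :
    ∀ {m : ℤ}, Traj t q lam L m → (m < B ∨ m ≤ B ∧ NotHead v L) → Traj t q lam' L m := by
  induction L with
  | nil => intro m hm _; exact hm
  | cons a L ih =>
    rintro m ⟨m₁, h1, h2, h3⟩ hB
    have hmB : m ≤ B := by
      rcases hB with hB | hB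
      · exact hB.le
      · exact hB.1
    refine ⟨m₁, h1, ih h2 (Or.inl (lt_of_lt_of_le h1 hmB)), ?_⟩
    have hm₁ := h2.nonneg
    obtain ⟨u, δ⟩ := a
    by_cases hu : u = v
    · subst hu
      have hmB' : m < B := by
        rcases hB with hB | hB
        · exact hB
        · exact absurd rfl hB.2
      have f1 : h • t ^ m₁ • q = t ^ m₁ • q := hfix m₁ hm₁ (lt_trans h1 hmB')
      have f2 : h • t ^ m • q = t ^ m • q := hfix m (hm₁.trans h1.le) hmB'
      have f1' : h⁻¹ • t ^ m₁ • q = t ^ m₁ • q := by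
        rw [inv_smul_eq_iff, f1]
      have f2' : h⁻¹ • t ^ m • q = t ^ m • q := by
        rw [inv_smul_eq_iff, f2]
      cases δ with
      | true =>
        have h3' : lam u • t ^ m₁ • q = t ^ m • q := h3
        show lam' u • t ^ m₁ • q = t ^ m • q
        rcases hv with hv | hv
        · rw [hv, mul_smul, f1, h3']
        · rw [hv, mul_smul, h3', f2']
      | false =>
        have h3' : (lam u)⁻¹ • t ^ m₁ • q = t ^ m • q := h3
        show (lam' u)⁻¹ • t ^ m₁ • q = t ^ m • q
        rcases hv with hv | hv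
        · rw [hv, mul_inv_rev, mul_smul, h3', f2']
        · rw [hv, mul_inv_rev, inv_inv, mul_smul, f1, h3']
    · have e : letter lam' (u, δ) = letter lam (u, δ) := by
        unfold letter
        simp only
        rw [hne u hu]
      rw [e, h3]

/-- pushing a point to the right by conjugates of `g` -/
theorem exists_push {t : G} {D : ℕ} {g : G} (hg : Disp X t D g) {p : X} {ρ : ℕ} {e : ℤ}
    (he0 : 0 < e) (he : g • p = t ^ e • p)
    (hfix : ∀ i : ℤ, -(ρ : ℤ) ≤ i → i < 0 → g • t ^ i • p = t ^ i • p) (s : ℤ) (E : ℕ)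
    {M : ℤ} (hM : M + E * e ≤ ρ) :
    ∃ h : G, Disp X t (E * D) h ∧ h • t ^ s • p = t ^ (s + E * e) • p ∧
      ∀ i : ℤ, -M ≤ i → i < 0 → h • t ^ (s + i) • p = t ^ (s + i) • p := by
  induction E with
  | zero =>
    refine ⟨1, Disp.one _ _, by simp, fun i _ _ => by simp⟩
  | succ E ih =>
    have hM' : M + E * e ≤ ρ := by
      push_cast at hM
      linarith
    obtain ⟨h, h1, h2, h3⟩ := ih hM'
    obtain ⟨r, hr⟩ : ∃ r : ℤ, r = s + E * e := ⟨_, rfl⟩
    have hc : ∀ i : ℤ, (t ^ r * g * t ^ (-r)) • t ^ (r + i) • p =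
        t ^ r • g • t ^ i • p := by
      intro i
      rw [mul_smul, mul_smul, smul_smul (t ^ (-r)), ← zpow_add]
      congr 4
      ring
    refine ⟨t ^ r * g * t ^ (-r) * h, ?_, ?_, ?_⟩
    · refine ((hg.conj r).mul h1).mono (le_of_eq ?_)
      ring
    · have h4 := hc 0
      rw [add_zero, zpow_zero, one_smul, he, smul_smul (t ^ r) (t ^ e), ← zpow_add] at h4
      rw [mul_smul, h2, ← hr, h4, hr]
      congr 2
      push_cast
      ring
    · intro i hi hi'
      rw [mul_smul, h3 i hi hi']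
      have h4 := hc (i - E * e)
      have h5 : g • t ^ (i - E * e) • p = t ^ (i - E * e) • p := by
        apply hfix
        · push_cast at hM
          linarith
        · have : 0 ≤ (E : ℤ) * e := by positivity
          linarith
      rw [h5, smul_smul (t ^ r) (t ^ (i - E * e)), ← zpow_add] at h4
      have h6 : r + (i - E * e) = s + i := by rw [hr]; ring
      rw [h6] at h4
      exact h4

/-- an element with displacement at most `D` which fixes the `D` points in front of `p` moves `p`
forward -/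
theorem exists_fwd {t : G} {D : ℕ} {g : G} (hg : Disp X t D g) {p : X} {ρ : ℕ} (hρ : D ≤ ρ)
    (hfix : ∀ i : ℤ, -(ρ : ℤ) ≤ i → i < 0 → g • t ^ i • p = t ^ i • p) (hp : g • p ≠ p) :
    ∃ e : ℤ, 0 < e ∧ e ≤ D ∧ g • p = t ^ e • p := by
  obtain ⟨e, he, h⟩ := hg p
  rw [abs_le] at he
  refine ⟨e, ?_, he.2, h⟩
  rcases lt_trichotomy e 0 with h1 | h1 | h1
  · exfalso
    have h2 := hfix e (by have : (D : ℤ) ≤ ρ := by exact_mod_cast hρ
                          linarith) h1
    rw [← h] at h2
    exact hp (smul_left_cancel g h2)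
  · exfalso
    rw [h1] at h
    exact hp (by simpa using h)
  · exact h1

theorem exists_traj (D : ℕ) (L : List (ℕ × Bool)) (hL : Alt L) :
    ∃ ρ K N : ℕ, ∀ {G X : Type} [Group G] [MulAction G X] (t g : G) (p : X),
      Disp X t D g → (∀ i : ℤ, -(ρ : ℤ) ≤ i → i < 0 → g • t ^ i • p = t ^ i • p) →
      g • p ≠ p → ∃ lam : ℕ → G, (∀ v, Disp X t K (lam v)) ∧
        ∃ n : ℤ, n ≤ N ∧ Traj t p lam L n := by
  induction L with
  | nil =>
    refine ⟨0, 0, 0, fun t g p _ _ _ => ⟨fun _ => 1, fun v => Disp.one _ _, 0, le_rfl, rfl⟩⟩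
  | cons a L ih =>
    obtain ⟨ρ, K, N, H⟩ := ih hL.tail
    refine ⟨max ρ (N + (K + 1) * D), K + (K + 1) * D, N + (K + 1) * D + K, ?_⟩
    intro G X _ _ t g p hg hfix hp
    have hle1 : (ρ : ℤ) ≤ (max ρ (N + (K + 1) * D) : ℕ) := by exact_mod_cast le_max_left _ _
    have hle2 : ((N + (K + 1) * D : ℕ) : ℤ) ≤ (max ρ (N + (K + 1) * D) : ℕ) := by
      exact_mod_cast le_max_right _ _
    obtain ⟨lam, hlam, n, hn, htr⟩ := H t g p hg
      (fun i h1 h2 => hfix i (by linarith) h2) hp
    obtain ⟨e, he0, heD, he⟩ := exists_fwd hg (ρ := max ρ (N + (K + 1) * D))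
      ((by nlinarith : D ≤ N + (K + 1) * D).trans (le_max_right _ _)) hfix hp
    have hn0 := htr.nonneg
    have hEe : ((K + 1 : ℕ) : ℤ) * e ≤ ((K + 1) * D : ℕ) := by
      push_cast
      exact mul_le_mul_of_nonneg_left heD (by positivity)
    obtain ⟨h, h1, h2, h3⟩ := exists_push hg he0 he hfix n (K + 1) (M := n) (by
      push_cast at hEe hle2 hn ⊢
      linarith)
    have hhfix : ∀ i : ℤ, 0 ≤ i → i < n → h • t ^ i • p = t ^ i • p := by
      intro i hi0 hin
      have := h3 (i - n) (by linarith) (by linarith)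
      rwa [add_sub_cancel] at this
    obtain ⟨v, ε⟩ := a
    have hnh : NotHead v L := hL.notHead
    -- the new point
    have hKe : (K : ℤ) < ((K + 1 : ℕ) : ℤ) * e := by
      push_cast
      nlinarith
    cases ε with
    | true =>
      obtain ⟨i, hi, hie⟩ := hlam v (t ^ (n + ((K + 1 : ℕ) : ℤ) * e) • p)
      rw [abs_le] at hi
      refine ⟨fun u => if u = v then lam v * h else lam u, ?_,
        i + (n + ((K + 1 : ℕ) : ℤ) * e), ?_, n, ?_, ?_, ?_⟩
      · intro u
        by_cases hu : u = v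
        · simp only [if_pos hu]
          exact (hlam v).mul h1
        · simp only [if_neg hu]
          exact (hlam u).mono (Nat.le_add_right _ _)
      · push_cast at hEe hn ⊢
        linarith [hi.2]
      · linarith [hi.1]
      · refine Traj.keep (v := v) hhfix (fun u hu => if_neg hu) (Or.inl (if_pos rfl)) htr
          (Or.inr ⟨le_rfl, hnh⟩)
      · show (if v = v then lam v * h else lam v) • t ^ n • p = _
        rw [if_pos rfl, mul_smul, h2, hie, ← mul_smul, ← zpow_add]
    | false =>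
      obtain ⟨i, hi, hie⟩ := (hlam v).inv (t ^ (n + ((K + 1 : ℕ) : ℤ) * e) • p)
      rw [abs_le] at hi
      refine ⟨fun u => if u = v then h⁻¹ * lam v else lam u, ?_,
        i + (n + ((K + 1 : ℕ) : ℤ) * e), ?_, n, ?_, ?_, ?_⟩
      · intro u
        by_cases hu : u = v
        · simp only [if_pos hu]
          exact (h1.inv.mul (hlam v)).mono (le_of_eq (by ring))
        · simp only [if_neg hu]
          exact (hlam u).mono (Nat.le_add_right _ _)
      · push_cast at hEe hn ⊢
        linarith [hi.2]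
      · linarith [hi.1]
      · refine Traj.keep (v := v) hhfix (fun u hu => if_neg hu) (Or.inr (if_pos rfl)) htr
          (Or.inr ⟨le_rfl, hnh⟩)
      · show (if v = v then h⁻¹ * lam v else lam v)⁻¹ • t ^ n • p = _
        rw [if_pos rfl, mul_inv_rev, inv_inv, mul_smul, h2, hie, ← mul_smul, ← zpow_add]

end Pool.Agent.FullLaws
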