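import Mathlib.GroupTheory.Index
import Mathlib.GroupTheory.GroupAction.Quotient
import Mathlib.Tactic

/-!
# Virtually abelian groups have polynomial growth, and subgroups of bounded index
-/

set_option autoImplicit false

namespace Pool.Agent.FullLaws

variable {G : Type} [Group G]

/-- the ball of radius `n` -/
def ballL (S : Finset G) (n : ℕ) : Set G :=
  {g : G | ∃ l : List G, l.length ≤ n ∧ (∀ x ∈ l, x ∈ S ∨ x⁻¹ ∈ S) ∧ l.prod = g}

open Classical in
/-- a virtually abelian group has polynomial growth -/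
theorem poly_growth (A : Subgroup G) (hA : A.FiniteIndex)
    (hcomm : ∀ a ∈ A, ∀ b ∈ A, a * b = b * a) (S : Finset G) :
    ∃ C d : ℕ, ∀ n : ℕ, (ballL S n).ncard ≤ C * (n + 1) ^ d := by
  let _ : CommGroup A := { (inferInstance : Group A) with
    mul_comm := fun a b => Subtype.ext (hcomm a a.2 b b.2) }
  let _ : Finite (G ⧸ A) := Subgroup.finite_quotient_of_finiteIndex
  let _ : Fintype (G ⧸ A) := Fintype.ofFinite _
  obtain ⟨T, hT⟩ : ∃ T : Finset G, ∀ x, x ∈ T ↔ x ∈ S ∨ x⁻¹ ∈ S := by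
    refine ⟨S ∪ S.image (fun x => x⁻¹), fun x => ?_⟩
    rw [Finset.mem_union, Finset.mem_image]
    constructor
    · rintro (h | ⟨y, hy, rfl⟩)
      · exact Or.inl h
      · exact Or.inr (by rwa [inv_inv])
    · rintro (h | h)
      · exact Or.inl h
      · exact Or.inr ⟨x⁻¹, h, inv_inv x⟩
  have hmem : ∀ (s : G) (q : G ⧸ A), (s • q).out⁻¹ * (s * q.out) ∈ A := by
    intro s q
    rw [← QuotientGroup.eq]
    rw [QuotientGroup.out_eq']
    conv_lhs => rw [← QuotientGroup.out_eq' q]
    rfl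
  obtain ⟨φ, hφ⟩ : ∃ φ : {x // x ∈ T} × (G ⧸ A) → A,
      ∀ s q, (φ (s, q) : G) = (s.1 • q).out⁻¹ * (s.1 * q.out) :=
    ⟨fun a => ⟨_, hmem a.1.1 a.2⟩, fun _ _ => rfl⟩
  have hc : ((1 : G) : G ⧸ A).out⁻¹ ∈ A := by
    have h := (QuotientGroup.eq (s := A)).1 (QuotientGroup.out_eq' ((1 : G) : G ⧸ A))
    rwa [mul_one] at h
  have key : ∀ l : List G, (∀ x ∈ l, x ∈ T) → ∃ (q : G ⧸ A)
      (k : {x // x ∈ T} × (G ⧸ A) → ℕ), (∀ f, k f ≤ l.length) ∧
      l.prod = q.out * ((∏ f, φ f ^ k f : A) : G) * ((1 : G) : G ⧸ A).out⁻¹ := by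
    intro l
    induction l with
    | nil =>
      intro _
      exact ⟨((1 : G) : G ⧸ A), fun _ => 0, fun _ => le_rfl, by simp⟩
    | cons s l ih =>
      intro hl
      obtain ⟨q, k, hk, e⟩ := ih (fun x hx => hl x (List.mem_cons_of_mem _ hx))
      have hs : s ∈ T := hl s List.mem_cons_self
      refine ⟨s • q, fun f => k f + if f = (⟨s, hs⟩, q) then 1 else 0, fun f => ?_, ?_⟩
      · have := hk f
        rw [List.length_cons]
        show k f + (if f = (⟨s, hs⟩, q) then 1 else 0) ≤ _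
        split_ifs <;> omega
      · have h1 : (∏ f, φ f ^ (k f + if f = ((⟨s, hs⟩ : {x // x ∈ T}), q) then 1 else 0) : A) =
            φ (⟨s, hs⟩, q) * ∏ f, φ f ^ k f := by
          simp only [pow_add, Finset.prod_mul_distrib]
          rw [mul_comm]
          congr 1
          rw [Finset.prod_eq_single (((⟨s, hs⟩ : {x // x ∈ T}), q))]
          · simp
          · intro b _ hb
            rw [if_neg hb, pow_zero]
          · intro h
            exact absurd (Finset.mem_univ _) h
        rw [h1, List.prod_cons, e, Subgroup.coe_mul, hφ]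
        group
  refine ⟨Fintype.card (G ⧸ A), Fintype.card ({x // x ∈ T} × (G ⧸ A)), fun n => ?_⟩
  have hsub : ballL S n ⊆ Set.range (fun a : (G ⧸ A) ×
      ({x // x ∈ T} × (G ⧸ A) → Fin (n + 1)) =>
        a.1.out * ((∏ f, φ f ^ (a.2 f : ℕ) : A) : G) * ((1 : G) : G ⧸ A).out⁻¹) := by
    rintro g ⟨l, h1, h2, rfl⟩
    obtain ⟨q, k, hk, e⟩ := key l (fun x hx => (hT x).2 (h2 x hx))
    refine ⟨(q, fun f => ⟨k f, by have := hk f; omega⟩), ?_⟩
    simp only
    rw [e]
  refine (Set.ncard_le_ncard hsub (Set.finite_range _)).trans ?_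
  rw [← Set.image_univ]
  refine (Set.ncard_image_le Set.finite_univ).trans ?_
  rw [Set.ncard_univ, Nat.card_eq_fintype_card, Fintype.card_prod, Fintype.card_fun,
    Fintype.card_fin]

/-- a homomorphism from a finitely generated group is determined by finitely many values -/
theorem finite_hom {S : Finset G} (hS : Subgroup.closure (S : Set G) = ⊤) (H : Type) [Group H]
    [Finite H] : Finite (G →* H) := by
  have hinj : Function.Injective (fun (f : G →* H) (s : {x // x ∈ S}) => f s.1) := by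
    intro f f' h
    have h1 : Set.EqOn f f' (S : Set G) := fun s hs => congrFun h ⟨s, hs⟩
    have h2 := MonoidHom.eqOn_closure h1
    rw [hS] at h2
    exact MonoidHom.ext fun g => h2 (Subgroup.mem_top g)
  exact Finite.of_injective _ hinj

/-- a finitely generated group has finitely many subgroups of index at most `m` -/
theorem finite_subgroups {S : Finset G} (hS : Subgroup.closure (S : Set G) = ⊤) (m : ℕ) :
    {H : Subgroup G | H.FiniteIndex ∧ H.index ≤ m}.Finite := by
  have : ∀ k : Fin (m + 1), Finite (G →* Equiv.Perm (Fin k)) := fun k => finite_hom hS _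
  have hfin : (Set.range (fun a : (k : Fin (m + 1)) × ((G →* Equiv.Perm (Fin k)) × Fin k) =>
      {g : G | a.2.1 g a.2.2 = a.2.2})).Finite := Set.finite_range _
  refine Set.Finite.of_finite_image (f := fun H : Subgroup G => (H : Set G)) (hfin.subset ?_)
    (fun H _ H' _ h => SetLike.coe_injective h)
  rintro _ ⟨H, ⟨h1, h2⟩, rfl⟩
  have : Finite (G ⧸ H) := Subgroup.finite_quotient_of_finiteIndex
  have hcard : Nat.card (G ⧸ H) = H.index := rfl
  let e : (G ⧸ H) ≃ Fin H.index := hcard ▸ Finite.equivFin (G ⧸ H)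
  refine ⟨⟨⟨H.index, by omega⟩, (e.permCongrHom.toMonoidHom.comp (MulAction.toPermHom G (G ⧸ H))),
    e ((1 : G) : G ⧸ H)⟩, ?_⟩
  ext g
  show (e.permCongr (MulAction.toPermHom G (G ⧸ H) g)) (e ((1 : G) : G ⧸ H)) = e _ ↔ g ∈ H
  rw [Equiv.permCongr_apply, Equiv.symm_apply_apply, e.apply_eq_iff_eq]
  show ((g • (1 : G) : G) : G ⧸ H) = ((1 : G) : G ⧸ H) ↔ g ∈ H
  rw [smul_eq_mul, mul_one, eq_comm, QuotientGroup.eq, inv_one, one_mul]

/-- intersections of subgroups of bounded index -/
theorem finiteIndex_iInf_of_le {S : Finset G} (hS : Subgroup.closure (S : Set G) = ⊤)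
    {X : Type} (B : X → Subgroup G) {m : ℕ} (hB : ∀ x, (B x).FiniteIndex ∧ (B x).index ≤ m) :
    (⨅ x, B x).FiniteIndex := by
  have hfin : (Set.range B).Finite := (finite_subgroups hS m).subset (by
    rintro _ ⟨x, rfl⟩
    exact hB x)
  have : Finite (Set.range B) := hfin
  rw [← sInf_range, sInf_eq_iInf']
  refine Subgroup.finiteIndex_iInf ?_
  rintro ⟨_, x, rfl⟩
  exact (hB x).1

end Pool.Agent.FullLaws
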