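import Pool.Agent.FullLaws.Local
import Pool.Agent.FullLaws.Growth

/-!
# Piecewise powers of an element, and group laws: the theorem
-/

set_option autoImplicit false

namespace Pool.Agent.FullLaws

/-! ### from laws to alternating laws -/

/-- substitution `x i ↦ x (2 i) * x (2 i + 1)` -/
def dbl (a : ℕ × Bool) : List (ℕ × Bool) :=
  cond a.2 [(2 * a.1, true), (2 * a.1 + 1, true)] [(2 * a.1 + 1, false), (2 * a.1, false)]

theorem alt_dbl {L : List (ℕ × Bool)} (hL : FreeGroup.IsReduced L) :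
    Alt (L.flatMap dbl) := by
  induction L with
  | nil => trivial
  | cons a L ih =>
    cases L with
    | nil =>
      obtain ⟨i, b⟩ := a
      cases b <;> simp [dbl, Alt]
    | cons b L =>
      have h := List.isChain_cons_cons.1 hL
      have ih' := ih h.2
      have h1 := h.1
      obtain ⟨i, b₁⟩ := a
      obtain ⟨j, b₂⟩ := b
      simp only at h1
      rw [List.flatMap_cons] at ih' ⊢
      cases b₁ <;> cases b₂ <;> simp [dbl, Alt] at ih' h1 ⊢ <;>
        refine ⟨?_, ih'⟩ <;> omega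

theorem ev_dbl {G : Type} [Group G] (lam : ℕ → G) (L : List (ℕ × Bool)) :
    ev lam (L.flatMap dbl) = ev (fun i => lam (2 * i) * lam (2 * i + 1)) L := by
  induction L with
  | nil => rfl
  | cons a L ih =>
    have h : ∀ L₁ L₂ : List (ℕ × Bool), ev lam (L₁ ++ L₂) = ev lam L₁ * ev lam L₂ := by
      intro L₁ L₂
      simp [ev]
    rw [List.flatMap_cons, h, ih, ev_cons]
    congr 1
    obtain ⟨i, b⟩ := a
    cases b <;> simp [dbl, ev, letter]

theorem exists_alt {w : FreeGroup ℕ} (hw : w ≠ 1) : ∃ L : List (ℕ × Bool), Alt L ∧ L ≠ [] ∧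
    ∀ (G : Type) [Group G], (∀ f : ℕ → G, FreeGroup.lift f w = 1) → IsLaw G L := by
  refine ⟨w.toWord.flatMap dbl, alt_dbl FreeGroup.isReduced_toWord, ?_, ?_⟩
  · have h1 : w.toWord ≠ [] := by
      intro h
      exact hw (FreeGroup.toWord_eq_nil_iff.1 h)
    cases hL : w.toWord with
    | nil => exact absurd hL h1
    | cons a L =>
      obtain ⟨i, b⟩ := a
      cases b <;> simp [dbl]
  · intro G _ hlaw lam
    rw [ev_dbl]
    have h := hlaw (fun i => lam (2 * i) * lam (2 * i + 1))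
    rw [← FreeGroup.mk_toWord (x := w), FreeGroup.lift_mk] at h
    exact h

/-! ### groups with a central power of `t` -/

section central

variable {G X : Type} [Group G] [MulAction G X]

/-- the elements which move `x` along its orbit under `z` -/
def BX (z : G) (hz : ∀ g : G, g * z = z * g) (x : X) : Subgroup G where
  carrier := {g | ∃ k : ℤ, g • x = z ^ k • x}
  one_mem' := ⟨0, by simp⟩
  mul_mem' := by
    rintro a b ⟨k, hk⟩ ⟨l, hl⟩
    have hc : Commute a (z ^ l) := Commute.zpow_right (hz a) l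
    refine ⟨l + k, ?_⟩
    rw [mul_smul, hl, ← mul_smul, hc.eq, mul_smul, hk, smul_smul, ← zpow_add]
  inv_mem' := by
    rintro a ⟨k, hk⟩
    have hc : Commute a (z ^ (-k)) := Commute.zpow_right (hz a) (-k)
    refine ⟨-k, ?_⟩
    rw [inv_smul_eq_iff, ← mul_smul, hc.eq, mul_smul, hk, smul_smul, ← zpow_add, neg_add_cancel,
      zpow_zero, one_smul]

theorem BX_index {t : G} {N : ℕ} (hN : 0 < N) (hz : ∀ g : G, g * t ^ N = t ^ N * g)
    (horb : ∀ (g : G) (x : X), ∃ i : ℤ, g • x = t ^ i • x) (x : X) :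
    (BX (t ^ N) hz x).FiniteIndex ∧ (BX (t ^ N) hz x).index ≤ N := by
  have : NeZero N := ⟨hN.ne'⟩
  choose c hc using fun g : G => horb g x
  have hinj : Function.Injective (fun q : G ⧸ BX (t ^ N) hz x => ((c q.out : ℤ) : ZMod N)) := by
    intro q q' h
    simp only at h
    rw [ZMod.intCast_eq_intCast_iff] at h
    obtain ⟨m, hm⟩ := h.dvd
    rw [← QuotientGroup.out_eq' q, ← QuotientGroup.out_eq' q', QuotientGroup.eq]
    generalize q.out = a at hm
    generalize q'.out = b at hm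
    have hcm : Commute a ((t ^ N) ^ m) := Commute.zpow_right (hz _) m
    refine ⟨m, ?_⟩
    have e1 : (t ^ N) ^ m • t ^ c a • x = t ^ c b • x := by
      rw [smul_smul, ← zpow_natCast t N, ← zpow_mul, ← zpow_add]
      congr 2
      linarith
    rw [mul_smul, inv_smul_eq_iff, ← mul_smul, hcm.eq, mul_smul, hc a, hc b, e1]
  have hfin : Finite (G ⧸ BX (t ^ N) hz x) := Finite.of_injective _ hinj
  refine ⟨Subgroup.finiteIndex_of_finite_quotient, ?_⟩
  have h1 := Nat.card_le_card_of_injective _ hinj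
  rw [Nat.card_zmod] at h1
  exact h1

theorem virtually_abelian [FaithfulSMul G X] {t : G} {N : ℕ} (hN : 0 < N)
    (hz : ∀ g : G, g * t ^ N = t ^ N * g) (horb : ∀ (g : G) (x : X), ∃ i : ℤ, g • x = t ^ i • x)
    {S : Finset G} (hS : Subgroup.closure (S : Set G) = ⊤) :
    ∃ A : Subgroup G, A.FiniteIndex ∧ ∀ a ∈ A, ∀ b ∈ A, a * b = b * a := by
  refine ⟨⨅ x : X, BX (t ^ N) hz x,
    finiteIndex_iInf_of_le hS _ (fun x => BX_index hN hz horb x), ?_⟩
  intro a ha b hb
  apply eq_of_smul_eq_smul (α := X)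
  intro x
  rw [Subgroup.mem_iInf] at ha hb
  obtain ⟨k, hk⟩ := ha x
  obtain ⟨l, hl⟩ := hb x
  have h1 : Commute a ((t ^ N) ^ l) := Commute.zpow_right (hz a) l
  have h2 : Commute b ((t ^ N) ^ k) := Commute.zpow_right (hz b) k
  rw [mul_smul, mul_smul, hl, hk, ← mul_smul, h1.eq, mul_smul, hk, ← mul_smul b, h2.eq,
    mul_smul, hl, smul_smul, smul_smul, ← zpow_add, ← zpow_add, add_comm]

end central

/-- the theorem -/
theorem main {G X : Type} [Group G] [MulAction G X] [FaithfulSMul G X] (t : G)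
    (ht : ∀ g : G, ∃ D : ℕ, Disp X t D g) {S : Finset G}
    (hS : Subgroup.closure (S : Set G) = ⊤) {w : FreeGroup ℕ} (hw : w ≠ 1)
    (hlaw : ∀ f : ℕ → G, FreeGroup.lift f w = 1) :
    ∃ A : Subgroup G, A.FiniteIndex ∧ ∀ a ∈ A, ∀ b ∈ A, a * b = b * a := by
  obtain ⟨L, hL, hne, hlaw'⟩ := exists_alt hw
  have hG := hlaw' G hlaw
  choose D hD using ht
  obtain ⟨D₀, hD₀⟩ : ∃ D₀ : ℕ, ∀ s ∈ S, D s ≤ D₀ := ⟨S.sup D, fun s hs => Finset.le_sup hs⟩
  obtain ⟨N, hN, H⟩ := exists_commute D₀ hL hne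
  have hcS : ∀ s ∈ S, s * t ^ N = t ^ N * s := by
    intro s hs
    apply eq_of_smul_eq_smul (α := X)
    intro x
    rw [mul_smul, mul_smul]
    exact H t s hG ((hD s).mono (hD₀ s hs)) x
  have hc : ∀ g : G, g * t ^ N = t ^ N * g := by
    intro g
    have h1 : Subgroup.closure (S : Set G) ≤ Subgroup.centralizer {t ^ N} := by
      rw [Subgroup.closure_le]
      intro s hs
      rw [SetLike.mem_coe, Subgroup.mem_centralizer_singleton_iff]
      exact hcS s hs
    rw [hS] at h1
    exact Subgroup.mem_centralizer_singleton_iff.1 (h1 (Subgroup.mem_top g))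
  refine virtually_abelian (X := X) hN hc (fun g x => ?_) hS
  obtain ⟨i, -, h⟩ := hD g x
  exact ⟨i, h⟩

end Pool.Agent.FullLaws
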