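import Pool.Agent.FullLaws.Basic

/-!
# Piecewise powers of an element, and group laws: commutation with a power of `t`
-/

set_option autoImplicit false

namespace Pool.Agent.FullLaws

/-- the word `L` is a law of `G` -/
def IsLaw (G : Type) [Group G] (L : List (ℕ × Bool)) : Prop := ∀ lam : ℕ → G, ev lam L = 1

theorem uniform (D : ℕ) {L : List (ℕ × Bool)} (hL : Alt L) (hne : L ≠ []) :
    ∃ ρ N : ℕ, ∀ {G X : Type} [Group G] [MulAction G X] (t g : G) (p : X), IsLaw G L →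
      Disp X t D g → (∀ i : ℤ, -(ρ : ℤ) ≤ i → i < 0 → g • t ^ i • p = t ^ i • p) →
      g • p ≠ p → ∃ j : ℕ, 0 < j ∧ j ≤ N ∧ t ^ j • p = p := by
  obtain ⟨ρ, K, N, H⟩ := exists_traj D L hL
  refine ⟨ρ, N, ?_⟩
  intro G X _ _ t g p hlaw hg hfix hp
  obtain ⟨lam, -, n, hn, htr⟩ := H t g p hg hfix hp
  have h0 : 0 < n := by
    cases L with
    | nil => exact absurd rfl hne
    | cons a L => exact htr.pos
  have h1 := htr.ev
  rw [hlaw lam, one_smul] at h1
  refine ⟨n.toNat, by omega, by omega, ?_⟩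
  rw [← zpow_natCast, Int.toNat_of_nonneg h0.le, ← h1]

theorem uniform_neg (D : ℕ) {L : List (ℕ × Bool)} (hL : Alt L) (hne : L ≠ []) :
    ∃ ρ N : ℕ, ∀ {G X : Type} [Group G] [MulAction G X] (t g : G) (p : X), IsLaw G L →
      Disp X t D g → (∀ i : ℤ, 0 < i → i ≤ ρ → g • t ^ i • p = t ^ i • p) →
      g • p ≠ p → ∃ j : ℕ, 0 < j ∧ j ≤ N ∧ t ^ j • p = p := by
  obtain ⟨ρ, N, H⟩ := uniform D hL hne
  refine ⟨ρ, N, ?_⟩
  intro G X _ _ t g p hlaw hg hfix hp
  obtain ⟨j, h1, h2, h3⟩ := H t⁻¹ g p hlaw hg.neg (by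
    intro i hi hi'
    have := hfix (-i) (by linarith) (by linarith)
    rwa [inv_zpow, ← zpow_neg]) hp
  refine ⟨j, h1, h2, ?_⟩
  rw [inv_pow, inv_smul_eq_iff] at h3
  exact h3.symm

theorem smul_comm_pow {G X : Type} [Group G] [MulAction G X] {t : G} {x : X} {j : ℕ} {m : ℤ}
    (h : t ^ j • t ^ m • x = t ^ m • x) : t ^ j • x = x := by
  have h1 : t ^ m • t ^ j • x = t ^ m • x := by
    rw [← h, smul_smul, smul_smul, ← zpow_natCast, ← zpow_add, ← zpow_add, add_comm]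
  exact smul_left_cancel _ h1

/-- an element which fixes a long interval fixes the whole orbit of `t` -/
theorem fixes_orbit (D : ℕ) {L : List (ℕ × Bool)} (hL : Alt L) (hne : L ≠ []) :
    ∃ ρ N : ℕ, ∀ {G X : Type} [Group G] [MulAction G X] (t g : G) (x : X), IsLaw G L →
      Disp X t D g → (∀ i : ℤ, 0 ≤ i → i < ρ → g • t ^ i • x = t ^ i • x) →
      (∃ j : ℕ, 0 < j ∧ j ≤ N ∧ t ^ j • x = x) ∨ ∀ i : ℤ, g • t ^ i • x = t ^ i • x := by
  obtain ⟨ρ₁, N₁, H₁⟩ := uniform D hL hne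
  obtain ⟨ρ₂, N₂, H₂⟩ := uniform_neg D hL hne
  refine ⟨max ρ₁ ρ₂, max N₁ N₂, ?_⟩
  intro G X _ _ t g x hlaw hg hfix
  by_cases hsm : ∃ j : ℕ, 0 < j ∧ j ≤ max N₁ N₂ ∧ t ^ j • x = x
  · exact Or.inl hsm
  right
  push Not at hsm
  have hle1 : (ρ₁ : ℤ) ≤ (max ρ₁ ρ₂ : ℕ) := by exact_mod_cast le_max_left _ _
  have hle2 : (ρ₂ : ℤ) ≤ (max ρ₁ ρ₂ : ℕ) := by exact_mod_cast le_max_right _ _
  have hr : ∀ k : ℕ, g • t ^ (k : ℤ) • x = t ^ (k : ℤ) • x := by
    intro k
    induction k using Nat.strong_induction_on with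
    | _ k ih =>
      by_cases hk : (k : ℤ) < (max ρ₁ ρ₂ : ℕ)
      · exact hfix k (by positivity) hk
      · by_contra hmov
        obtain ⟨j, j1, j2, j3⟩ := H₁ t g (t ^ (k : ℤ) • x) hlaw hg (by
          intro i hi hi'
          have h1 := ih (k + i).toNat (by omega)
          rw [Int.toNat_of_nonneg (by omega)] at h1
          rw [smul_smul (t ^ i), ← zpow_add, add_comm i]
          exact h1) hmov
        exact hsm j j1 (j2.trans (le_max_left _ _)) (smul_comm_pow j3)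
  have hl : ∀ k : ℕ, g • t ^ (-(k : ℤ)) • x = t ^ (-(k : ℤ)) • x := by
    intro k
    induction k using Nat.strong_induction_on with
    | _ k ih =>
      by_contra hmov
      obtain ⟨j, j1, j2, j3⟩ := H₂ t g (t ^ (-(k : ℤ)) • x) hlaw hg (by
        intro i hi hi'
        rw [smul_smul (t ^ i), ← zpow_add]
        by_cases h0 : 0 ≤ i + -(k : ℤ)
        · have h1 := hr (i + -(k : ℤ)).toNat
          rw [Int.toNat_of_nonneg h0] at h1
          exact h1
        · have h1 := ih (-(i + -(k : ℤ))).toNat (by omega)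
          rw [Int.toNat_of_nonneg (by omega), neg_neg] at h1
          exact h1) hmov
      exact hsm j j1 (j2.trans (le_max_right _ _)) (smul_comm_pow j3)
  intro i
  rcases le_total 0 i with h0 | h0
  · have h1 := hr i.toNat
    rwa [Int.toNat_of_nonneg h0] at h1
  · have h1 := hl (-i).toNat
    rwa [Int.toNat_of_nonneg (by omega), neg_neg] at h1

/-- two equal windows of the displacement -/
theorem exists_window {G X : Type} [Group G] [MulAction G X] {t g : G} {D : ℕ}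
    (hg : Disp X t D g) (x : X) (ρ : ℕ) :
    ∃ (n : ℤ) (d : ℕ), 0 < d ∧ d ≤ (2 * D + 1) ^ ρ ∧ ∀ i : ℤ, n ≤ i → i < n + ρ →
      (g⁻¹ * (t ^ (-(d : ℤ)) * g * t ^ (- -(d : ℤ)))) • t ^ i • x = t ^ i • x := by
  choose c hc hgc using fun i : ℤ => hg (t ^ i • x)
  have hc' : ∀ i, (c i + D).toNat < 2 * D + 1 := by
    intro i
    have := abs_le.1 (hc i)
    omega
  obtain ⟨F, hF⟩ : ∃ F : Fin ((2 * D + 1) ^ ρ + 1) → (Fin ρ → Fin (2 * D + 1)),
      ∀ n j, F n j = ⟨(c ((n : ℕ) + (j : ℕ)) + D).toNat, hc' _⟩ := ⟨fun n j => _, fun _ _ => rfl⟩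
  obtain ⟨n, n', hnn, hF'⟩ := Fintype.exists_ne_map_eq_of_card_lt F (by simp)
  have key : ∀ n n' : Fin ((2 * D + 1) ^ ρ + 1), n < n' → F n = F n' →
      ∃ (n : ℤ) (d : ℕ), 0 < d ∧ d ≤ (2 * D + 1) ^ ρ ∧ ∀ i : ℤ, n ≤ i → i < n + ρ →
      (g⁻¹ * (t ^ (-(d : ℤ)) * g * t ^ (- -(d : ℤ)))) • t ^ i • x = t ^ i • x := by
    intro n n' hlt hFF
    have hlt' : (n : ℕ) < n' := hlt
    refine ⟨(n : ℕ), n' - n, by omega, by have := n'.2; omega, fun i hi hi' => ?_⟩
    obtain ⟨j, hj⟩ : ∃ j : ℕ, i = (n : ℕ) + j := ⟨(i - (n : ℕ)).toNat, by omega⟩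
    have hjρ : j < ρ := by omega
    have h1 := congrFun hFF ⟨j, hjρ⟩
    rw [hF, hF, Fin.mk.injEq] at h1
    simp only at h1
    have hb1 := abs_le.1 (hc (((n : ℕ) : ℤ) + (j : ℕ)))
    have hb2 := abs_le.1 (hc (((n' : ℕ) : ℤ) + (j : ℕ)))
    have h2 : c (((n : ℕ) : ℤ) + (j : ℕ)) = c (((n' : ℕ) : ℤ) + (j : ℕ)) := by omega
    have e1 : t ^ (- -(((n' : ℕ) - (n : ℕ) : ℕ) : ℤ)) • t ^ i • x =
        t ^ (((n' : ℕ) : ℤ) + (j : ℕ)) • x := by
      rw [smul_smul, ← zpow_add]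
      congr 2
      omega
    rw [mul_smul, mul_smul, mul_smul, e1, hgc, ← h2, inv_smul_eq_iff, hj, hgc,
      smul_smul, smul_smul, smul_smul, ← zpow_add, ← zpow_add, ← zpow_add]
    congr 2
    omega
  rcases lt_or_gt_of_ne hnn with h | h
  · exact key n n' h hF'
  · exact key n' n h hF'.symm

theorem pow_orbit {G X : Type} [Group G] [MulAction G X] {t : G} {x : X} {j N : ℕ}
    (h : t ^ j • x = x) (hj : j ∣ N) (i : ℤ) : t ^ N • t ^ i • x = t ^ i • x := by
  obtain ⟨m, rfl⟩ := hj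
  have h1 : ∀ m : ℕ, t ^ (j * m) • x = x := by
    intro m
    induction m with
    | zero => simp
    | succ m ih => rw [Nat.mul_succ, pow_add, mul_smul, h, ih]
  rw [smul_smul, ← zpow_natCast, ← zpow_add, add_comm, zpow_add, zpow_natCast, mul_smul, h1]

/-- the elements with displacement at most `D` commute with a fixed power of `t` -/
theorem exists_commute (D : ℕ) {L : List (ℕ × Bool)} (hL : Alt L) (hne : L ≠ []) :
    ∃ N : ℕ, 0 < N ∧ ∀ {G X : Type} [Group G] [MulAction G X] (t g : G), IsLaw G L →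
      Disp X t D g → ∀ x : X, g • t ^ N • x = t ^ N • g • x := by
  obtain ⟨ρ, N, H⟩ := fixes_orbit (D + D) hL hne
  refine ⟨(max N ((2 * D + 1) ^ ρ)).factorial, Nat.factorial_pos _, ?_⟩
  intro G X _ _ t g hlaw hg x
  obtain ⟨n, d, hd0, hd, hk⟩ := exists_window hg x ρ
  have hkD : Disp X t (D + D) (g⁻¹ * (t ^ (-(d : ℤ)) * g * t ^ (- -(d : ℤ)))) :=
    hg.inv.mul (hg.conj _)
  obtain ⟨k, hkdef⟩ : ∃ k, k = g⁻¹ * (t ^ (-(d : ℤ)) * g * t ^ (- -(d : ℤ))) := ⟨_, rfl⟩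
  rw [← hkdef] at hk hkD
  have hor : ∀ y : X, (∃ i : ℤ, y = t ^ i • t ^ n • x) ↔ ∃ i : ℤ, y = t ^ i • x := by
    intro y
    constructor
    · rintro ⟨i, rfl⟩
      exact ⟨i + n, by rw [smul_smul, ← zpow_add]⟩
    · rintro ⟨i, rfl⟩
      exact ⟨i - n, by rw [smul_smul, ← zpow_add, sub_add_cancel]⟩
  obtain ⟨ig, -, hig⟩ := hg x
  rcases H t k (t ^ n • x) hlaw hkD (by
    intro i hi hi'
    have := hk (i + n) (by linarith) (by linarith)
    rwa [smul_smul (t ^ i), ← zpow_add]) with ⟨j, j1, j2, j3⟩ | hall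
  · have hdvd : j ∣ (max N ((2 * D + 1) ^ ρ)).factorial :=
      Nat.dvd_factorial j1 (j2.trans (le_max_left _ _))
    have h1 : ∀ i : ℤ, t ^ (max N ((2 * D + 1) ^ ρ)).factorial • t ^ i • x = t ^ i • x := by
      intro i
      obtain ⟨i', hi'⟩ := (hor (t ^ i • x)).2 ⟨i, rfl⟩
      rw [hi']
      exact pow_orbit j3 hdvd i'
    have h2 := h1 0
    rw [zpow_zero, one_smul] at h2
    rw [h2, hig, h1 ig]
  · have hall' : ∀ i : ℤ, g • t ^ d • t ^ i • x = t ^ d • g • t ^ i • x := by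
      intro i
      obtain ⟨i', hi'⟩ := (hor (t ^ i • x)).2 ⟨i, rfl⟩
      have h1 := hall i'
      rw [← hi', hkdef, mul_smul, inv_smul_eq_iff, mul_smul, mul_smul, neg_neg, zpow_neg,
        inv_smul_eq_iff, zpow_natCast] at h1
      exact h1
    have hm : ∀ m : ℕ, ∀ i : ℤ, g • t ^ (d * m) • t ^ i • x = t ^ (d * m) • g • t ^ i • x := by
      intro m
      induction m with
      | zero => intro i; simp
      | succ m ih =>
        intro i
        have e1 : t ^ (d * (m + 1)) • t ^ i • x = t ^ d • t ^ (d * m + i) • x := by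
          rw [Nat.mul_succ, add_comm, pow_add, mul_smul, smul_smul (t ^ (d * m)),
            ← zpow_natCast t (d * m), ← zpow_add]
          push_cast
          rfl
        have e2 : t ^ ((d : ℤ) * m + i) • x = t ^ (d * m) • t ^ i • x := by
          rw [zpow_add, mul_smul, ← zpow_natCast t (d * m)]
          push_cast
          rfl
        rw [e1, hall', e2, ih, Nat.mul_succ, add_comm, pow_add, mul_smul]
    have hdvd : d ∣ (max N ((2 * D + 1) ^ ρ)).factorial :=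
      Nat.dvd_factorial hd0 (hd.trans (le_max_right _ _))
    obtain ⟨m, hm'⟩ := hdvd
    have h1 := hm m 0
    rw [zpow_zero, one_smul, ← hm'] at h1
    exact h1

end Pool.Agent.FullLaws
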